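import Pool.Agent.Helper14.TL7.StD

/-!
# Project TL, levels `4 * 7^n`, module Itr: iteration of the leading forms
-/

set_option autoImplicit false

namespace Pool.Agent.Helper85.TL7

open Pool.Agent.Helper14.TL7
open Pool.Agent.Helper14.CV (Homog EqC act Tl)
open Pool.Agent.Helper4.TL (eps OkE SymE evLE)
open Pool.Agent.Helper4.S7 (Tm mulL sclL Gd mmL idL)
open Pool.Agent.Helper84.S7

section

variable {r s : ℕ}

/-- the two functions -/
private noncomputable def P (r s : ℕ) (G : ℤ → ℤ → ZMod 7) : Fin 2 → Fn7 (7 ^ r) (7 ^ s) :=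
  fun f => pfE G f

private theorem lw_pow (hl : S7Low0) {O : Module.End (ZMod 7) (Fn7 (7 ^ r) (7 ^ s))} {k : ℤ}
    (hO : Lw O k) (n : ℕ) : Lw (O ^ n) (k * n) := by
  obtain ⟨hm, -, -, -, -, h1, -⟩ := hl r s
  induction n with
  | zero => simpa using h1
  | succ n ih =>
    rw [pow_succ]
    have := hm _ _ _ _ ih hO
    rwa [show k * n + k = k * (n + 1 : ℕ) by push_cast; ring] at this

private theorem lw_mono (hl : S7Low0) (a b : ℕ) :
    Lw (dX ^ a * dY ^ b : Module.End (ZMod 7) (Fn7 (7 ^ r) (7 ^ s))) ((a : ℤ) + b) := by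
  obtain ⟨hm, -, -, -, -, -, hx, hy, -⟩ := hl r s
  have h1 := hm _ _ _ _ (lw_pow hl hx a) (lw_pow hl hy b)
  rwa [one_mul, one_mul] at h1

private theorem lw_Q (hl : S7Low0) : Lw (QoE : Module.End (ZMod 7) (Fn7 (7 ^ r) (7 ^ s))) 2 := by
  have h := (hl r s).2.2.1 _ 3 _ (lw_mono (r := r) (s := s) hl 1 1)
  norm_num at h
  exact h

private theorem lw_L (hl : S7Low0) : Lw (LoE : Module.End (ZMod 7) (Fn7 (7 ^ r) (7 ^ s))) 8 := by
  have h1 := lw_mono (r := r) (s := s) hl 7 1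
  have h3 := lw_mono (r := r) (s := s) hl 1 7
  norm_num at h1 h3
  exact (hl r s).2.1 _ _ _ h1 h3

private theorem lw_M (hl : S7Low0) (c : ℕ) :
    Lw (MoE c : Module.End (ZMod 7) (Fn7 (7 ^ r) (7 ^ s))) (nOE c : ℤ) := by
  unfold MoE
  refine Finset.sum_induction _ (fun O => Lw O (nOE c : ℤ)) ?_ ?_ ?_
  · exact fun O O' h h' => (hl r s).2.1 _ _ _ h h'
  · exact fun d F _ => Submodule.zero_mem _
  · intro i hi
    rw [Finset.mem_range] at hi
    have h := (hl r s).2.2.1 _ ((qOE c i : ℤ) : ZMod 7) _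
      (lw_mono (r := r) (s := s) hl (nOE c - i) i)
    have e : ((nOE c - i : ℕ) : ℤ) + i = nOE c := by
      rw [← Nat.cast_add]
      congr 1
      omega
    rwa [e] at h

private theorem stepL (hl : S7Low0) {O : Module.End (ZMod 7) (Fn7 (7 ^ r) (7 ^ s))} {k e : ℤ}
    (hO : Lw O k) {F H F' : Fn7 (7 ^ r) (7 ^ s)} (hF : F ∈ Wd7 e) (hH : F - H ∈ Wd7 (e - 1))
    (hF' : F' - O F ∈ Wd7 (e - k - 1)) : F' ∈ Wd7 (e - k) ∧ F' - O H ∈ Wd7 (e - k - 1) := by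
  have hmono := (hl r s).2.2.2.2.1
  have h1 : O F ∈ Wd7 (e - k) := hO e F hF
  have h2 : O (F - H) ∈ Wd7 (e - k - 1) := by
    have := hO (e - 1) _ hH
    rwa [show e - 1 - k = e - k - 1 by ring] at this
  constructor
  · have h3 := Submodule.add_mem _ (hmono _ _ (by linarith) hF') h1
    rwa [sub_add_cancel] at h3
  · have h3 := Submodule.add_mem _ hF' h2
    rwa [map_sub, sub_add_sub_cancel] at h3

/-- the state -/
private def St (r s : ℕ) (e : ℤ) (G : ℤ → ℤ → ZMod 7) (H : Fn7 (7 ^ r) (7 ^ s)) : Prop :=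
  SymE 7 r (s + 1) G ∧ P r s G 0 ∈ Wd7 e ∧ P r s G 1 ∈ Wd7 (e - 1) ∧ P r s G 0 - H ∈ Wd7 (e - 1)

/-- one step with an operator of lowering `k` -/
private theorem stO (hr : TRel) (hl : S7Low0) {k e : ℤ}
    {O : Module.End (ZMod 7) (Fn7 (7 ^ r) (7 ^ s))} (hO : Lw O k) {G G' : ℤ → ℤ → ZMod 7}
    (hG' : SymE 7 r (s + 1) G')
    (hd : ∀ (d : ℤ) (F : Fin 2 → Fn7 (7 ^ r) (7 ^ s)), RelE F → F 0 ∈ Wd7 d → F 1 ∈ Wd7 d →
      F = P r s G → ∀ i : Fin 2, P r s G' i - O (F i) ∈ Wd7 (d - k - 1))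
    {H : Fn7 (7 ^ r) (7 ^ s)} (h : St r s e G H) : St r s (e - k) G' (O H) := by
  obtain ⟨hG, hF0, hF1, hH⟩ := h
  have hmono := (hl r s).2.2.2.2.1
  have hR : RelE (P r s G) := hr (ZMod 7) _ r s G hG
  have l := hd e (P r s G) hR hF0 (hmono _ _ (by linarith) hF1) rfl
  obtain ⟨m1, m2⟩ := stepL hl hO hF0 hH (l 0)
  refine ⟨hG', m1, ?_, m2⟩
  have h1 : O (P r s G 1) ∈ Wd7 (e - k - 1) := by
    have := hO (e - 1) _ hF1
    rwa [show e - 1 - k = e - k - 1 by ring] at this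
  have h2 := Submodule.add_mem _ (l 1) h1
  rwa [sub_add_cancel] at h2

private theorem stU (hr : TRel) (hs : TStp) (hl : S7Low0) (hu : TLdU)
    {e : ℤ} {G : ℤ → ℤ → ZMod 7} {H : Fn7 (7 ^ r) (7 ^ s)} (h : St r s e G H) :
    St r s (e - 2) (UoE (2 * 7 ^ r) G) (QoE H) := by
  obtain ⟨⟨sU, pU⟩, -⟩ := hs r s G h.1
  refine stO hr hl (lw_Q hl) sU (fun d F hR h0 h1 hF i => ?_) h
  have l := hu r s d F hR h0 h1 i
  have e1 : P r s (UoE (2 * 7 ^ r) G) i = ∑ f : Fin 2, opL (ULE i f) (F f) := by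
    rw [hF]
    exact pU i
  rw [e1, show d - 2 - 1 = d - 3 by ring]
  exact l

private theorem stV (hr : TRel) (hs : TStp) (hl : S7Low0) (hv : TLdV)
    {e : ℤ} {G : ℤ → ℤ → ZMod 7} {H : Fn7 (7 ^ r) (7 ^ s)} (h : St r s e G H) :
    St r s (e - 8) (VoE (2 * 7 ^ r) G) (LoE H) := by
  obtain ⟨-, ⟨sV, pV⟩, -⟩ := hs r s G h.1
  refine stO hr hl (lw_L hl) sV (fun d F hR h0 h1 hF i => ?_) h
  have l := hv r s d F hR h0 h1 i
  have e1 : P r s (VoE (2 * 7 ^ r) G) i = ∑ f : Fin 2, opL (VLE i f) (F f) := by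
    rw [hF]
    exact pV i
  rw [e1, show d - 8 - 1 = d - 9 by ring]
  exact l

private theorem itU (hr : TRel) (hs : TStp) (hl : S7Low0) (hu : TLdU)
    {e : ℤ} {G : ℤ → ℤ → ZMod 7} {H : Fn7 (7 ^ r) (7 ^ s)} (h : St r s e G H) (i : ℕ) :
    St r s (e - 2 * i) ((UoE (2 * 7 ^ r))^[i] G)
      ((QoE ^ i : Module.End (ZMod 7) (Fn7 (7 ^ r) (7 ^ s))) H) := by
  induction i with
  | zero => simpa using h
  | succ i ih =>
    have h4 := stU hr hs hl hu ih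
    have hp : (QoE ^ (i + 1) : Module.End (ZMod 7) (Fn7 (7 ^ r) (7 ^ s))) = QoE * QoE ^ i :=
      pow_succ' _ _
    have e2 : e - 2 * ((i + 1 : ℕ) : ℤ) = e - 2 * i - 2 := by push_cast; ring
    rw [Function.iterate_succ_apply', hp, e2]
    exact h4

private theorem itV (hr : TRel) (hs : TStp) (hl : S7Low0) (hv : TLdV)
    {e : ℤ} {G : ℤ → ℤ → ZMod 7} {H : Fn7 (7 ^ r) (7 ^ s)} (h : St r s e G H) (j : ℕ) :
    St r s (e - 8 * j) ((VoE (2 * 7 ^ r))^[j] G)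
      ((LoE ^ j : Module.End (ZMod 7) (Fn7 (7 ^ r) (7 ^ s))) H) := by
  induction j with
  | zero => simpa using h
  | succ j ih =>
    have h4 := stV hr hs hl hv ih
    have hp : (LoE ^ (j + 1) : Module.End (ZMod 7) (Fn7 (7 ^ r) (7 ^ s))) = LoE * LoE ^ j :=
      pow_succ' _ _
    have e2 : e - 8 * ((j + 1 : ℕ) : ℤ) = e - 8 * j - 8 := by push_cast; ring
    rw [Function.iterate_succ_apply', hp, e2]
    exact h4

private theorem kill (hl : S7Low0) {O : Module.End (ZMod 7) (Fn7 (7 ^ r) (7 ^ s))} {k e : ℤ}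
    (hO : Lw O k) {F : Fn7 (7 ^ r) (7 ^ s)} (hF : F ∈ Wd7 e) (h : e < k) : O F = 0 := by
  have hmono := (hl r s).2.2.2.2.1
  have hz : ∀ F : Fn7 (7 ^ r) (7 ^ s), F ∈ Wd7 (-1) → F = 0 :=
    (hl r s).2.2.2.2.2.2.2.2.2.2.2.2.2
  exact hz _ (hmono _ (-1) (by linarith [Int.add_one_le_of_lt h]) (hO e F hF))

private theorem dg_eq (c i j : ℕ) (hc : c ≤ 3) : dgE c i j = nOE c + 2 * i + 8 * j := by
  obtain rfl | rfl | rfl | rfl : c = 0 ∨ c = 1 ∨ c = 2 ∨ c = 3 := by omega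
  all_goals simp [dgE, aaE, abE, nOE]

end

/-- **ITR.** -/
theorem hItr (hr : TRel) (hs : TStp) (hl : S7Low0) (hu : TLdU) (hv : TLdV) (ho : TOm) : TItr := by
  intro r s G d hG hF0 hF1 c i j hc
  have hmono := (hl r s).2.2.2.2.1
  have h0 : St r s (d : ℤ) G (P r s G 0) := by
    refine ⟨hG, hF0, hF1, ?_⟩
    rw [sub_self]
    exact Submodule.zero_mem _
  have hK := itU hr hs hl hu (itV hr hs hl hv h0 j) i
  set K : ℤ → ℤ → ZMod 7 := (UoE (2 * 7 ^ r))^[i] ((VoE (2 * 7 ^ r))^[j] G) with hKd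
  set H : Fn7 (7 ^ r) (7 ^ s) := (QoE ^ i : Module.End (ZMod 7) (Fn7 (7 ^ r) (7 ^ s)))
    ((LoE ^ j : Module.End (ZMod 7) (Fn7 (7 ^ r) (7 ^ s))) (P r s G 0)) with hHd
  obtain ⟨kG, k0, k1, kH⟩ := hK
  have kR : RelE (P r s K) := hr (ZMod 7) _ r s K kG
  obtain ⟨-, -, hO, hval⟩ := hs r s K kG
  have ev : evE (2 * 7 ^ r) G c i j = P r s (OoE c (2 * 7 ^ r) K) 0 0 0 :=
    (hval (OoE c (2 * 7 ^ r) K)).symm
  have hOc : P r s (OoE c (2 * 7 ^ r) K) 0 = ∑ f : Fin 2, opL (OLE (⟨c, by omega⟩ : Fin 4) f) (P r s K f) :=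
    hO ⟨c, by omega⟩
  have evM : (d : ℤ) - 8 * j - 2 * i ≤ nOE c →
      evE (2 * 7 ^ r) G c i j = (MoE c (P r s K 0)) 0 0 := by
    intro h4
    rw [ev, hOc]
    exact ho r s ⟨c, by omega⟩ (P r s K) kR (hmono _ _ h4 k0) (hmono _ _ (by linarith) k1)
  have hdg := dg_eq c i j hc
  refine ⟨fun hlt => ?_, fun heq => ?_⟩
  · have hlt' : (d : ℤ) - 8 * j - 2 * i < nOE c := by
      rw [hdg] at hlt
      have : (d : ℤ) < nOE c + 2 * i + 8 * j := by exact_mod_cast hlt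
      linarith
    rw [evM hlt'.le, kill hl (lw_M hl c) k0 hlt']
    rfl
  · have heq' : (d : ℤ) - 8 * j - 2 * i = nOE c := by
      rw [hdg] at heq
      have : (nOE c + 2 * i + 8 * j : ℤ) = d := by exact_mod_cast heq
      linarith
    have h1 := kill hl (lw_M hl c) kH (by linarith)
    rw [map_sub, sub_eq_zero] at h1
    rw [evM heq'.le, h1]
    rfl

end Pool.Agent.Helper85.TL7
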